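import Pool.Agent.Run7.h49.JT.Iface

/-! Piece U5 of the project of helper49 (MP_245e03_an, Q2): the main estimate. -/

set_option autoImplicit false

namespace Run7.h760.JT

open Pool.Agent.R277.JT Set Filter Topology
open Run7.h49.JT

lemma anc_self (b : ℕ) : anc b b := ⟨0, by simp⟩

lemma anc_half {b e : ℕ} (h : anc b e) : anc (b / 2) e := by
  obtain ⟨j, hj⟩ := h
  refine ⟨j + 1, ?_⟩
  rw [pow_succ, ← Nat.div_div_eq_div_mul, hj]

lemma anc_half_half {b e : ℕ} (h : anc b e) : anc (b / 2) (e / 2) := by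
  obtain ⟨j, hj⟩ := h
  refine ⟨j, ?_⟩
  rw [Nat.div_div_eq_div_mul, mul_comm, ← Nat.div_div_eq_div_mul, hj]

lemma anc_le {b e : ℕ} (h : anc b e) : b ≤ e := by
  obtain ⟨j, hj⟩ := h
  rw [← hj]
  exact Nat.div_le_self _ _

lemma anc_sub {I : ℕ → Finset ℕ} (h : ∀ t, 1 ≤ t → I (t / 2) ⊆ I t) {p e : ℕ} (ha : anc p e) : I p ⊆ I e := by
  obtain ⟨j, hj⟩ := ha
  rw [← hj]
  clear hj
  induction j with
  | zero => simp
  | succ j ih =>
    rw [pow_succ, ← Nat.div_div_eq_div_mul]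
    refine Finset.Subset.trans ?_ ih
    rcases Nat.eq_zero_or_pos (e / 2 ^ j) with h0 | h0
    · rw [h0]
    · exact h _ h0

lemma geo_sum (s : Finset (ℕ × ℕ)) (hinj : ∀ q ∈ s, ∀ q' ∈ s, q.1 = q'.1 → q = q') :
    ∑ q ∈ s, ((1 / 2 : ℝ) ^ (q.1 + 1)) ^ 2 ≤ 1 := by
  classical
  have h1 : ∑ q ∈ s, ((1 / 2 : ℝ) ^ (q.1 + 1)) ^ 2 = ∑ b ∈ s.image Prod.fst, ((1 / 2 : ℝ) ^ (b + 1)) ^ 2 := by
    rw [Finset.sum_image]
    intro a ha b hb hab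
    exact hinj a ha b hb hab
  rw [h1]
  have h2 : s.image Prod.fst ⊆ Finset.range ((s.image Prod.fst).sup id + 1) := by
    intro b hb
    rw [Finset.mem_range, Nat.lt_succ_iff]
    exact Finset.le_sup (f := id) hb
  refine (Finset.sum_le_sum_of_subset_of_nonneg h2 (fun _ _ _ => by positivity)).trans ?_
  set N := (s.image Prod.fst).sup id + 1
  calc ∑ b ∈ Finset.range N, ((1 / 2 : ℝ) ^ (b + 1)) ^ 2 ≤ ∑ b ∈ Finset.range N, (1 / 2) * (1 / 2 : ℝ) ^ b := by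
        apply Finset.sum_le_sum
        intro b _
        have h3 : (0 : ℝ) < (1 / 2 : ℝ) ^ b := by positivity
        have h4 : (1 / 2 : ℝ) ^ b ≤ 1 := pow_le_one₀ (by norm_num) (by norm_num)
        have h5 : (1 / 2 : ℝ) ^ (b + 1) = (1 / 2) * (1 / 2 : ℝ) ^ b := by rw [pow_succ]; ring
        rw [h5]
        nlinarith
    _ = (1 / 2) * ∑ b ∈ Finset.range N, (1 / 2 : ℝ) ^ b := by rw [Finset.mul_sum]
    _ ≤ (1 / 2) * 2 := mul_le_mul_of_nonneg_left (sum_geometric_two_le N) (by norm_num)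
    _ = 1 := by norm_num

lemma sq4 (a b c d : ℝ) : (a + b - c - d) ^ 2 ≤ 4 * (a ^ 2 + b ^ 2 + c ^ 2 + d ^ 2) := by
  nlinarith [sq_nonneg (a - b), sq_nonneg (a + c), sq_nonneg (a + d), sq_nonneg (b + c), sq_nonneg (b + d), sq_nonneg (c - d)]

theorem prove_U5 : S_U1 → S_U2 → S_U3 → S_U4 → S_U5 := by
  classical
  intro hU1 hU2 hU3 hU4 y σ u I k K ε M hS θ hθ hG s hs hd x
  have hx0 : 0 ≤ ‖x‖ ^ 2 := by positivity
  -- the first components are different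
  have hinj : ∀ q ∈ s, ∀ q' ∈ s, q.1 = q'.1 → q = q' := by
    intro q hq q' hq' h
    by_contra hne
    have h1 := hd q hq q' hq' hne
    rw [Set.disjoint_left] at h1
    apply h1 (a := q.1)
    · exact ⟨anc_self _, (hs q hq).2⟩
    · rw [h]; exact ⟨anc_self _, (hs q' hq').2⟩
  -- the branches differ
  have hne : ∀ q ∈ s, ∀ i ∈ I (q.1 / 2), ∃ n, br (σ q.2 i) n ≠ br (σ (q.1 / 2) i) n := by
    intro q hq i hi
    obtain ⟨h1, h2⟩ := hs q hq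
    have h3 := anc_le h2
    have h4 : i ∈ I (q.2 / 2) := anc_sub hS.Isub (anc_half_half h2) hi
    have h5 := hS.fresh q.2 (by omega) i h4 (q.1 / 2) (by omega) i hi
    obtain ⟨j, hj⟩ := Function.ne_iff.1 h5
    exact ⟨j + 1, br_ne hj (Nat.lt_succ_self j)⟩
  have hex : ∀ (q : ℕ × ℕ) (i : ℕ), ∃ l : ℕ, q ∈ s → i ∈ I (q.1 / 2) →
      (∀ n < l, br (σ q.2 i) n = br (σ (q.1 / 2) i) n) ∧ br (σ q.2 i) l ≠ br (σ (q.1 / 2) i) l := by
    intro q i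
    by_cases h : q ∈ s ∧ i ∈ I (q.1 / 2)
    · refine ⟨Nat.find (hne q h.1 i h.2), fun _ _ => ⟨fun n hn => ?_, Nat.find_spec (hne q h.1 i h.2)⟩⟩
      by_contra hc
      exact Nat.find_min (hne q h.1 i h.2) hn hc
    · exact ⟨0, fun h1 h2 => absurd ⟨h1, h2⟩ h⟩
  choose L hL using hex
  have hLn : ∀ q ∈ s, ∀ i ∈ I (q.1 / 2), ∀ n, L q i ≤ n → br (σ q.2 i) n ≠ br (σ (q.1 / 2) i) n :=
    fun q hq i hi n hn => br_ne_of (hL q i hq hi).2 hn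
  have hLK : ∀ q ∈ s, ∀ i ∈ I (q.1 / 2), k (q.1 / 2) ≤ L q i := by
    intro q hq i hi
    obtain ⟨h1, h2⟩ := hs q hq
    have h3 : k (q.1 / 2) ≤ K q.1 := hS.kK _ _ (by omega)
    have h4 : K q.1 < L q i := by
      by_contra hc
      push Not at hc
      exact (hL q i hq hi).2 (hU2 y σ u I k K ε M hS q.1 q.2 h1 h2 i hi _ hc)
    omega
  -- the decomposition
  set A : ℕ × ℕ → ℕ → ℝ := fun q i => sg (br (σ q.2 i)) (L q i) x with hA
  set B : ℕ × ℕ → ℕ → ℝ := fun q i => sg (br (σ (q.1 / 2) i)) (L q i) x with hB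
  set Er : ℕ × ℕ → ℝ := fun q => (y q.2 - y (q.1 / 2) - ∑ i ∈ I (q.1 / 2), u (q.1 / 2) i •
    (sg (br (σ q.2 i)) (k (q.1 / 2)) - sg (br (σ (q.1 / 2) i)) (k (q.1 / 2)))) x with hEr
  set P : ℕ × ℕ → ℝ := fun q => ∑ i ∈ I (q.1 / 2), u (q.1 / 2) i * A q i with hP
  set No : ℕ × ℕ → ℝ := fun q => ∑ i ∈ I (q.1 / 2) ∩ I (q.1 / 2 / 2), u (q.1 / 2) i * B q i with hNo
  set Nn : ℕ × ℕ → ℝ := fun q => ∑ i ∈ I (q.1 / 2) \ I (q.1 / 2 / 2), u (q.1 / 2) i * B q i with hNn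
  have hdec : ∀ q ∈ s, (y q.2 - y (q.1 / 2)) x = Er q + P q - No q - Nn q := by
    intro q hq
    have h1 : (∑ i ∈ I (q.1 / 2), u (q.1 / 2) i •
        (sg (br (σ q.2 i)) (k (q.1 / 2)) - sg (br (σ (q.1 / 2) i)) (k (q.1 / 2)))) x =
        ∑ i ∈ I (q.1 / 2), u (q.1 / 2) i * (A q i - B q i) := by
      rw [_root_.sum_apply]
      apply Finset.sum_congr rfl
      intro i hi
      rw [_root_.smul_apply, smul_eq_mul,
        hU4 (σ q.2 i) (σ (q.1 / 2) i) (k (q.1 / 2)) (L q i) (hLK q hq i hi) (hL q i hq hi).1, _root_.sub_apply]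
    have h2 : No q + Nn q = ∑ i ∈ I (q.1 / 2), u (q.1 / 2) i * B q i := by
      rw [hNo, hNn]
      exact Finset.sum_inter_add_sum_sdiff _ _ _
    have h3 : ∑ i ∈ I (q.1 / 2), u (q.1 / 2) i * (A q i - B q i) = P q - (No q + Nn q) := by
      rw [h2, hP, ← Finset.sum_sub_distrib]
      apply Finset.sum_congr rfl
      intro i _
      ring
    rw [hEr]
    simp only
    rw [_root_.sub_apply (y q.2 - y (q.1 / 2)), h1, h3]
    ring
  -- the four parts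
  have hM2 : 0 ≤ M ^ 2 := sq_nonneg M
  have sumP : ∑ q ∈ s, (P q) ^ 2 ≤ M ^ 2 * ‖x‖ ^ 2 := by
    have h1 : ∀ q ∈ s, (P q) ^ 2 ≤ M ^ 2 * ∑ i ∈ I (q.1 / 2), (A q i) ^ 2 := by
      intro q _
      refine (Finset.sum_mul_sq_le_sq_mul_sq _ _ _).trans ?_
      exact mul_le_mul_of_nonneg_right (hS.energy _) (Finset.sum_nonneg fun _ _ => sq_nonneg _)
    refine (Finset.sum_le_sum h1).trans ?_
    rw [← Finset.mul_sum]
    apply mul_le_mul_of_nonneg_left _ hM2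
    rw [Finset.sum_sigma' s (fun q => I (q.1 / 2)) (fun q i => (A q i) ^ 2)]
    apply tails_sq (s.sigma fun q => I (q.1 / 2)) (fun z => br (σ z.1.2 z.2)) (fun z => L z.1 z.2)
    rintro ⟨q, i⟩ hz ⟨q', i'⟩ hz' hzz n hn hn'
    rw [Finset.mem_sigma] at hz hz'
    simp only at hz hz' hn hn' ⊢
    by_cases hqq : q = q'
    · subst hqq
      have hii : i ≠ i' := fun h => hzz (by rw [h])
      have h2 := hS.dist (q.1 / 2) q.2 (anc_half (hs q hz.1).2) i hz.2 i' hz'.2 hii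
      exact br_ne_of h2 ((hLK q hz.1 i hz.2).trans hn)
    · exact hU1 y σ u I k K ε M hS q.1 q.2 q'.1 q'.2 (hs q hz.1).1 (hs q' hz'.1).1 (hs q hz.1).2 (hs q' hz'.1).2
        (hd q hz.1 q' hz'.1 hqq) i hz.2 i' hz'.2 n (hLn q hz.1 i hz.2 n hn) (hLn q' hz'.1 i' hz'.2 n hn')
  have half : ∀ s' ⊆ s, (∀ q ∈ s', ∀ q' ∈ s', q ≠ q' → q.1 / 2 ≠ q'.1 / 2) →
      ∑ q ∈ s', (No q) ^ 2 ≤ M ^ 2 * ‖x‖ ^ 2 := by
    intro s' hs' hpar
    have h1 : ∀ q ∈ s', (No q) ^ 2 ≤ M ^ 2 * ∑ i ∈ I (q.1 / 2) ∩ I (q.1 / 2 / 2), (B q i) ^ 2 := by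
      intro q _
      refine (Finset.sum_mul_sq_le_sq_mul_sq _ _ _).trans ?_
      apply mul_le_mul_of_nonneg_right _ (Finset.sum_nonneg fun _ _ => sq_nonneg _)
      refine le_trans ?_ (hS.energy (q.1 / 2))
      exact Finset.sum_le_sum_of_subset_of_nonneg Finset.inter_subset_left (fun _ _ _ => sq_nonneg _)
    refine (Finset.sum_le_sum h1).trans ?_
    rw [← Finset.mul_sum]
    apply mul_le_mul_of_nonneg_left _ hM2
    rw [Finset.sum_sigma' s' (fun q => I (q.1 / 2) ∩ I (q.1 / 2 / 2)) (fun q i => (B q i) ^ 2)]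
    apply tails_sq (s'.sigma fun q => I (q.1 / 2) ∩ I (q.1 / 2 / 2)) (fun z => br (σ (z.1.1 / 2) z.2))
      (fun z => L z.1 z.2)
    rintro ⟨q, i⟩ hz ⟨q', i'⟩ hz' hzz n hn hn'
    rw [Finset.mem_sigma] at hz hz'
    simp only [Finset.mem_inter] at hz hz' hn hn' ⊢
    have hq := hs' hz.1
    have hq' := hs' hz'.1
    by_cases hqq : q = q'
    · subst hqq
      have hii : i ≠ i' := fun h => hzz (by rw [h])
      have h2 := hS.dist (q.1 / 2) (q.1 / 2) (anc_self _) i hz.2.1 i' hz'.2.1 hii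
      exact br_ne_of h2 ((hLK q hq i hz.2.1).trans hn)
    · exact hU3 y σ u I k K ε M hS q.1 q.2 q'.1 q'.2 (hs q hq).1 (hs q' hq').1 (hs q hq).2 (hs q' hq').2
        (hpar q hz.1 q' hz'.1 hqq) i hz.2.2 i' hz'.2.2 n (hLn q hq i hz.2.1 n hn).symm
        (hLn q' hq' i' hz'.2.1 n hn').symm
  have sumNo : ∑ q ∈ s, (No q) ^ 2 ≤ 2 * M ^ 2 * ‖x‖ ^ 2 := by
    rw [← Finset.sum_filter_add_sum_filter_not s (fun q => q.1 % 2 = 0)]
    have h1 := half (s.filter (fun q => q.1 % 2 = 0)) (Finset.filter_subset _ _) (by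
      intro q hq q' hq' hqq hc
      rw [Finset.mem_filter] at hq hq'
      exact hqq (hinj q hq.1 q' hq'.1 (by omega)))
    have h2 := half (s.filter (fun q => ¬ q.1 % 2 = 0)) (Finset.filter_subset _ _) (by
      intro q hq q' hq' hqq hc
      rw [Finset.mem_filter] at hq hq'
      exact hqq (hinj q hq.1 q' hq'.1 (by omega)))
    linarith
  have sumNn : ∑ q ∈ s, (Nn q) ^ 2 ≤ θ ^ 2 * ‖x‖ ^ 2 := by
    have h1 : ∀ q ∈ s, (Nn q) ^ 2 ≤ θ ^ 2 * ‖x‖ ^ 2 * ((1 / 2 : ℝ) ^ (q.1 + 1)) ^ 2 := by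
      intro q hq
      have h2 : (Nn q) ^ 2 ≤ (∑ i ∈ I (q.1 / 2) \ I (q.1 / 2 / 2), (u (q.1 / 2) i) ^ 2) *
          ∑ i ∈ I (q.1 / 2) \ I (q.1 / 2 / 2), (B q i) ^ 2 := Finset.sum_mul_sq_le_sq_mul_sq _ _ _
      have h3 : ∑ i ∈ I (q.1 / 2) \ I (q.1 / 2 / 2), (B q i) ^ 2 ≤ ‖x‖ ^ 2 := by
        apply tails_sq (I (q.1 / 2) \ I (q.1 / 2 / 2)) (fun i => br (σ (q.1 / 2) i)) (fun i => L q i)
        intro i hi i' hi' hii n hn hn'
        rw [Finset.mem_sdiff] at hi hi'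
        have h4 := hS.dist (q.1 / 2) (q.1 / 2) (anc_self _) i hi.1 i' hi'.1 hii
        exact br_ne_of h4 ((hLK q hq i hi.1).trans hn)
      have h4 : ∑ i ∈ I (q.1 / 2) \ I (q.1 / 2 / 2), (u (q.1 / 2) i) ^ 2 ≤ (θ * (1 / 2 : ℝ) ^ (q.1 + 1)) ^ 2 := by
        rcases Nat.eq_zero_or_pos (q.1 / 2) with h5 | h5
        · rw [h5]
          simp only [Nat.zero_div, Finset.sdiff_self, Finset.sum_empty]
          positivity
        · refine (hS.newE _ h5).trans ?_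
          apply pow_le_pow_left₀ (hG _).1 (hG q.1).2.2
      calc (Nn q) ^ 2 ≤ _ := h2
        _ ≤ (θ * (1 / 2 : ℝ) ^ (q.1 + 1)) ^ 2 * ‖x‖ ^ 2 :=
          mul_le_mul h4 h3 (Finset.sum_nonneg fun _ _ => sq_nonneg _) (by positivity)
        _ = _ := by ring
    refine (Finset.sum_le_sum h1).trans ?_
    rw [← Finset.mul_sum]
    have h2 := geo_sum s hinj
    have h3 : 0 ≤ θ ^ 2 * ‖x‖ ^ 2 := by positivity
    nlinarith
  have sumEr : ∑ q ∈ s, (Er q) ^ 2 ≤ θ ^ 2 * ‖x‖ ^ 2 := by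
    have h1 : ∀ q ∈ s, (Er q) ^ 2 ≤ θ ^ 2 * ‖x‖ ^ 2 * ((1 / 2 : ℝ) ^ (q.1 + 1)) ^ 2 := by
      intro q hq
      have h2 := hS.apx (q.1 / 2) q.2 (anc_half (hs q hq).2)
      have h3 : |Er q| ≤ (θ * (1 / 2 : ℝ) ^ (q.1 + 1)) * ‖x‖ := by
        rw [hEr, ← Real.norm_eq_abs]
        refine (ContinuousLinearMap.le_opNorm _ x).trans ?_
        exact mul_le_mul_of_nonneg_right (h2.trans (hG q.1).2.1) (norm_nonneg _)
      calc (Er q) ^ 2 = |Er q| ^ 2 := (sq_abs _).symm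
        _ ≤ ((θ * (1 / 2 : ℝ) ^ (q.1 + 1)) * ‖x‖) ^ 2 := pow_le_pow_left₀ (abs_nonneg _) h3 2
        _ = _ := by ring
    refine (Finset.sum_le_sum h1).trans ?_
    rw [← Finset.mul_sum]
    have h2 := geo_sum s hinj
    have h3 : 0 ≤ θ ^ 2 * ‖x‖ ^ 2 := by positivity
    nlinarith
  calc ∑ q ∈ s, ((y q.2 - y (q.1 / 2)) x) ^ 2
      ≤ ∑ q ∈ s, 4 * ((Er q) ^ 2 + (P q) ^ 2 + (No q) ^ 2 + (Nn q) ^ 2) := by
        apply Finset.sum_le_sum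
        intro q hq
        rw [hdec q hq]
        exact sq4 _ _ _ _
    _ = 4 * (∑ q ∈ s, (Er q) ^ 2 + ∑ q ∈ s, (P q) ^ 2 + ∑ q ∈ s, (No q) ^ 2 + ∑ q ∈ s, (Nn q) ^ 2) := by
        rw [← Finset.mul_sum, Finset.sum_add_distrib, Finset.sum_add_distrib, Finset.sum_add_distrib]
    _ ≤ (12 * M ^ 2 + 8 * θ ^ 2) * ‖x‖ ^ 2 := by
        linarith

end Run7.h760.JT
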